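import Pool.Agent.N783.PQ.Lat
import Pool.Agent.N262.PJ.Chi

/-!
# Project PQ: formal properties of the Gram matrices (`S_CHI`) (helper73)

After `Pool.Agent.N262.PJ.Chi` (helper262).
-/

set_option autoImplicit false
set_option linter.all false

open Polynomial Matrix

namespace Pool.Agent.N73.PQ

open Pool.Agent.N783.PQ
open Pool.Agent.N352.PJ (Mt Jm)
open Pool.Agent.N262.PJ (det_Jm mul_Jm_apply)

section gen

variable {L : Type} [Field L] [NumberField L] {g : ℕ} {f : ℤ[X]} {θ : L}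

theorem root_map (h : IsGen g f θ) : aeval θ (f.map (algebraMap ℤ ℚ)) = 0 := by
  rw [aeval_map_algebraMap]
  exact h.root

theorem minpoly_deg (h : IsGen g f θ) : (minpoly ℚ θ).natDegree = 2 * g + 1 := by
  rw [← h.rank, ← Field.primitive_element_iff_minpoly_natDegree_eq, eq_top_iff]
  intro x _
  obtain ⟨c, rfl⟩ := h.gen x
  refine sum_mem fun i _ => mul_mem (IntermediateField.algebraMap_mem _ (c i)) (pow_mem ?_ _)
  exact IntermediateField.mem_adjoin_simple_self ℚ θ

theorem minpoly_eq (h : IsGen g f θ) : minpoly ℚ θ = f.map (algebraMap ℤ ℚ) := by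
  have h1 : (f.map (algebraMap ℤ ℚ)).Monic := h.mon.map _
  refine (Polynomial.eq_of_monic_of_dvd_of_natDegree_le
    (minpoly.monic (IsIntegral.of_finite ℚ θ)) h1 (minpoly.dvd ℚ θ (root_map h)) ?_).symm
  rw [minpoly_deg h, h.mon.natDegree_map, h.deg]

theorem charpoly_mulMatrix (h : IsGen g f θ) (b : Module.Basis (Fin (2 * g + 1)) ℚ L) :
    (Algebra.leftMulMatrix b θ).charpoly = f.map (algebraMap ℤ ℚ) := by
  have h1 : (Algebra.leftMulMatrix b θ).charpoly = (Algebra.lmul ℚ L θ).charpoly := by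
    rw [Algebra.leftMulMatrix_apply]
    exact LinearMap.charpoly_toMatrix _ b
  rw [h1, ← minpoly_eq h]
  refine Polynomial.eq_of_monic_of_dvd_of_natDegree_le
    (minpoly.monic (IsIntegral.of_finite ℚ θ)) (LinearMap.charpoly_monic _) ?_ ?_
  · have h2 := LinearMap.minpoly_dvd_charpoly (Algebra.lmul ℚ L θ)
    have h3 : minpoly ℚ (Algebra.lmul ℚ L θ) = minpoly ℚ θ :=
      minpoly.algHom_eq (Algebra.lmul ℚ L) Algebra.lmul_injective θ
    rwa [h3] at h2
  · rw [LinearMap.charpoly_natDegree, h.rank, minpoly_deg h]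

theorem coe_mul (c : ℚ) (x : L) : (c : L) * x = c • x := by
  rw [Algebra.smul_def]
  rfl

theorem icoe_mul (c : ℤ) (x : L) : (c : L) * x = (c : ℚ) • x := by
  rw [Algebra.smul_def]
  congr 1
  simp

theorem top_pow (h : IsGen g f θ) (m : ℕ) (hm : m ≤ 2 * g) :
    h.top (θ ^ m) = if m = 2 * g then 1 else 0 := by
  have e1 : θ ^ m = h.basis ⟨m, by omega⟩ := by rw [h.basis_apply]
  rw [e1]
  unfold IsGen.top
  rw [Module.Basis.coord_apply, Module.Basis.repr_self, Finsupp.single_apply]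
  congr 1
  rw [Fin.ext_iff, Fin.val_last]

/-- The determinant of the Gram matrix. -/
theorem det (h : IsGen g f θ) (α : L) (E : Mt g ℚ) (hα : α ≠ 0) :
    (Matrix.of fun i j => h.top ((∑ a, E i a • θ ^ (a : ℕ)) *
      (∑ a, E j a • θ ^ (a : ℕ)) / α) : Mt g ℚ).det =
      E.det ^ 2 * (-1) ^ g * (Algebra.norm ℚ α)⁻¹ := by
  set N : Mt g ℚ := Algebra.leftMulMatrix h.basis α⁻¹ with hN
  set H : Mt g ℚ := Matrix.of fun c b => h.top (θ ^ (c : ℕ) * θ ^ (b : ℕ)) with hH
  have h1 : (Matrix.of fun i j => h.top ((∑ a, E i a • θ ^ (a : ℕ)) *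
      (∑ a, E j a • θ ^ (a : ℕ)) / α) : Mt g ℚ) = E * (Nᵀ * H) * Eᵀ := by
    ext i j
    rw [Matrix.of_apply]
    have e1 : (∑ a, E i a • θ ^ (a : ℕ)) * (∑ a, E j a • θ ^ (a : ℕ)) / α =
        ∑ b, E j b • ∑ a, E i a • (θ ^ (a : ℕ) * θ ^ (b : ℕ) / α) := by
      rw [mul_comm, Finset.sum_mul, Finset.sum_div]
      refine Finset.sum_congr rfl fun b _ => ?_
      rw [Finset.mul_sum, Finset.sum_div, Finset.smul_sum]
      refine Finset.sum_congr rfl fun a _ => ?_
      simp only [Algebra.smul_def]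
      ring
    have e2 : ∀ a b : Fin (2 * g + 1), h.top (θ ^ (a : ℕ) * θ ^ (b : ℕ) / α) =
        (Nᵀ * H) a b := by
      intro a b
      rw [Matrix.mul_apply]
      have e3 : θ ^ (a : ℕ) * θ ^ (b : ℕ) / α =
          ∑ c, N c a • (θ ^ (c : ℕ) * θ ^ (b : ℕ)) := by
        have e4 : α⁻¹ * θ ^ (a : ℕ) = ∑ c, N c a • θ ^ (c : ℕ) := by
          have := h.basis.sum_repr (α⁻¹ * h.basis a)
          rw [h.basis_apply] at this
          rw [← this]
          refine Finset.sum_congr rfl fun c _ => ?_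
          rw [hN, Algebra.leftMulMatrix_eq_repr_mul, h.basis_apply, h.basis_apply]
        have e5 : θ ^ (a : ℕ) * θ ^ (b : ℕ) / α = (α⁻¹ * θ ^ (a : ℕ)) * θ ^ (b : ℕ) := by
          rw [div_eq_mul_inv]; ring
        rw [e5, e4, Finset.sum_mul]
        refine Finset.sum_congr rfl fun c _ => ?_
        simp only [Algebra.smul_def]
        ring
      rw [e3, map_sum]
      refine Finset.sum_congr rfl fun c _ => ?_
      rw [map_smul, smul_eq_mul, Matrix.transpose_apply, hH, Matrix.of_apply]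
    rw [e1, map_sum, Matrix.mul_apply]
    refine Finset.sum_congr rfl fun b _ => ?_
    rw [map_smul, smul_eq_mul, map_sum, Matrix.transpose_apply, mul_comm]
    congr 1
    rw [Matrix.mul_apply]
    refine Finset.sum_congr rfl fun a _ => ?_
    rw [map_smul, smul_eq_mul, e2]
  have hHJ : (H * Jm g ℚ).det = 1 := by
    rw [Matrix.det_of_lowerTriangular]
    · apply Finset.prod_eq_one
      intro i _
      rw [mul_Jm_apply, hH, Matrix.of_apply, ← pow_add, Fin.val_rev, top_pow]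
      · rw [if_pos (by omega)]
      · omega
    · intro i j hij
      have hij' : (i : ℕ) < j := hij
      rw [mul_Jm_apply, hH, Matrix.of_apply, ← pow_add, Fin.val_rev, top_pow]
      · rw [if_neg (by omega)]
      · omega
  have hHd : H.det = (-1) ^ g := by
    rw [Matrix.det_mul, det_Jm] at hHJ
    have : H.det * ((-1) ^ g * (-1) ^ g) = (-1) ^ g := by
      rw [← mul_assoc, hHJ, one_mul]
    rwa [← mul_pow, neg_one_mul, neg_neg, one_pow, mul_one] at this
  have hNd : N.det = (Algebra.norm ℚ α)⁻¹ := by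
    rw [hN, ← Algebra.norm_eq_matrix_det]
    apply eq_inv_of_mul_eq_one_left
    rw [← map_mul, inv_mul_cancel₀ hα, map_one]
  rw [h1, Matrix.det_mul, Matrix.det_mul, Matrix.det_mul, Matrix.det_transpose,
    Matrix.det_transpose, hHd, hNd]
  ring

variable {hG : IsGen g f θ} {α : L} {e : Fin (2 * g + 1) → L} {A B : Mt g ℤ}

/-- The rational matrix. -/
def qm (A : Mt g ℤ) : Mt g ℚ := A.map (algebraMap ℤ ℚ)

theorem qm_apply (A : Mt g ℤ) (i j : Fin (2 * g + 1)) : qm A i j = ((A i j : ℤ) : ℚ) := rfl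

theorem qm_mul (A B : Mt g ℤ) : qm (A * B) = qm A * qm B := Matrix.map_mul

theorem qm_one : qm (1 : Mt g ℤ) = 1 := Matrix.map_one _ (map_zero _) (map_one _)

theorem qm_pow (A : Mt g ℤ) (m : ℕ) : qm (A ^ m) = qm A ^ m := by
  induction m with
  | zero => rw [pow_zero, pow_zero, qm_one]
  | succ m ih => rw [pow_succ, pow_succ, qm_mul, ih]

theorem qm_det (A : Mt g ℤ) : (qm A).det = ((A.det : ℤ) : ℚ) := by
  have h1 := (algebraMap ℤ ℚ).map_det A
  rw [qm]
  exact h1.symm

theorem isUnit_det (hl : Lat hG α e A B) : IsUnit A.det := by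
  rcases hl.det with h | h <;> rw [h]
  · exact isUnit_one
  · exact isUnit_one.neg

theorem qm_det_ne (hl : Lat hG α e A B) : (qm A).det ≠ 0 := by
  rw [qm_det]
  exact_mod_cast (isUnit_det hl).ne_zero

theorem indep (hl : Lat hG α e A B) : LinearIndependent ℚ e := by
  rw [Fintype.linearIndependent_iff]
  intro c hc
  have h1 : Matrix.vecMul c (qm A) = 0 := by
    funext j
    rw [Matrix.vecMul, dotProduct, Pi.zero_apply]
    have h2 : hG.top ((∑ i, c i • e i) * e j / α) = 0 := by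
      rw [hc, zero_mul, zero_div, map_zero]
    rw [← h2, Finset.sum_mul, Finset.sum_div, map_sum]
    refine Finset.sum_congr rfl fun i _ => ?_
    rw [qm_apply, hl.gA, smul_mul_assoc, smul_div_assoc, map_smul, smul_eq_mul]
  have h3 := Matrix.eq_zero_of_vecMul_eq_zero (qm_det_ne hl) h1
  intro i
  rw [h3]
  rfl

/-- Products with basis vectors. -/
theorem gram_mul (hl : Lat hG α e A B) (b : Module.Basis (Fin (2 * g + 1)) ℚ L)
    (hb : ∀ i, b i = e i) (z : L) (i : Fin (2 * g + 1)) :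
    hG.top (e i * z / α) = ∑ l, qm A i l * b.repr z l := by
  have h1 : e i * z / α = ∑ l, b.repr z l • (e i * e l / α) := by
    conv_lhs => rw [← b.sum_repr z]
    rw [Finset.mul_sum, Finset.sum_div]
    refine Finset.sum_congr rfl fun l _ => ?_
    rw [hb]
    simp only [Algebra.smul_def]
    ring
  rw [h1, map_sum]
  refine Finset.sum_congr rfl fun l _ => ?_
  rw [map_smul, smul_eq_mul, ← hl.gA, qm_apply, mul_comm]

theorem gram_pow (hl : Lat hG α e A B) (b : Module.Basis (Fin (2 * g + 1)) ℚ L)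
    (hb : ∀ i, b i = e i) (x : L) (i j : Fin (2 * g + 1)) :
    (qm A * Algebra.leftMulMatrix b x) i j = hG.top (x * (e i * e j) / α) := by
  have h1 : x * (e i * e j) / α = e i * (x * e j) / α := by ring
  rw [h1, gram_mul hl b hb, Matrix.mul_apply]
  refine Finset.sum_congr rfl fun l _ => ?_
  rw [Algebra.leftMulMatrix_eq_repr_mul, hb]

/-- The operator `A⁻¹ B`. -/
theorem qm_op (hl : Lat hG α e A B) (b : Module.Basis (Fin (2 * g + 1)) ℚ L)
    (hb : ∀ i, b i = e i) : qm (A⁻¹ * B) = Algebra.leftMulMatrix b θ := by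
  have h1 : qm A * qm (A⁻¹ * B) = qm A * Algebra.leftMulMatrix b θ := by
    rw [← qm_mul, ← Matrix.mul_assoc, Matrix.mul_nonsing_inv _ (isUnit_det hl), Matrix.one_mul]
    ext i j
    rw [gram_pow hl b hb, qm_apply, hl.gB]
  have h2 : IsUnit (qm A).det := (qm_det_ne hl).isUnit
  calc qm (A⁻¹ * B) = (qm A)⁻¹ * (qm A * qm (A⁻¹ * B)) := by
        rw [← Matrix.mul_assoc, Matrix.nonsing_inv_mul _ h2, Matrix.one_mul]
    _ = _ := by rw [h1, ← Matrix.mul_assoc, Matrix.nonsing_inv_mul _ h2, Matrix.one_mul]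

theorem chp_eq (hl : Lat hG α e A B) (b : Module.Basis (Fin (2 * g + 1)) ℚ L)
    (hb : ∀ i, b i = e i) : chp A B = f := by
  apply Polynomial.map_injective (algebraMap ℤ ℚ) (algebraMap ℤ ℚ).injective_int
  rw [chp, ← Matrix.charpoly_map]
  have h1 : (A⁻¹ * B).map (algebraMap ℤ ℚ) = Algebra.leftMulMatrix b θ := qm_op hl b hb
  rw [h1, charpoly_mulMatrix hG]

theorem det_eq (hl : Lat hG α e A B) (hα : α ≠ 0) (hsq : IsSquare (Algebra.norm ℚ α)) :
    A.det = (-1) ^ g := by
  obtain ⟨E, hE⟩ : ∃ E : Mt g ℚ, ∀ i, e i = ∑ a, E i a • θ ^ (a : ℕ) := by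
    refine ⟨fun i a => hG.basis.repr (e i) a, fun i => ?_⟩
    conv_lhs => rw [← hG.basis.sum_repr (e i)]
    exact Finset.sum_congr rfl fun a _ => by rw [hG.basis_apply]
  have h1 := det hG α E hα
  have h2 : (Matrix.of fun i j => hG.top ((∑ a, E i a • θ ^ (a : ℕ)) *
      (∑ a, E j a • θ ^ (a : ℕ)) / α) : Mt g ℚ) = qm A := by
    ext i j
    rw [Matrix.of_apply, ← hE, ← hE, qm_apply, hl.gA]
  rw [h2, qm_det] at h1
  obtain ⟨s, hs⟩ := hsq
  have hs0 : s ≠ 0 := by
    rintro rfl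
    rw [mul_zero] at hs
    exact hα (Algebra.norm_eq_zero_iff.1 hs)
  have h3 : ((A.det : ℤ) : ℚ) * (-1) ^ g = (E.det / s) ^ 2 := by
    rw [h1, hs]
    have h4 : ((-1 : ℚ)) ^ g * (-1) ^ g = 1 := by
      rw [← mul_pow, neg_one_mul, neg_neg, one_pow]
    calc E.det ^ 2 * (-1) ^ g * (s * s)⁻¹ * (-1) ^ g =
        E.det ^ 2 * (s * s)⁻¹ * ((-1) ^ g * (-1) ^ g) := by ring
      _ = _ := by rw [h4, mul_one, div_pow, sq s, div_eq_mul_inv]
  have h5 : 0 ≤ ((A.det : ℤ) : ℚ) * (-1) ^ g := by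
    rw [h3]
    positivity
  rcases hl.det with h | h <;> rcases Nat.even_or_odd g with hg | hg
  · rw [h, hg.neg_one_pow]
  · rw [h, hg.neg_one_pow] at h5
    norm_num at h5
  · rw [h, hg.neg_one_pow] at h5
    norm_num at h5
  · rw [h, hg.neg_one_pow]

theorem form_eq (hl : Lat hG α e A B) (b : Module.Basis (Fin (2 * g + 1)) ℚ L)
    (hb : ∀ i, b i = e i) (m : ℕ) (ξ : Fin (2 * g + 1) → ℤ) : ((form A B m ξ : ℤ) : ℚ) =
      hG.top (θ ^ m * (∑ i, (ξ i : L) * e i) ^ 2 / α) := by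
  have h1 : qm (A * (A⁻¹ * B) ^ m) = qm A * Algebra.leftMulMatrix b (θ ^ m) := by
    rw [qm_mul, qm_pow, qm_op hl b hb, map_pow]
  have e2 : θ ^ m * (∑ i, (ξ i : L) * e i) ^ 2 / α =
      ∑ i, (ξ i : ℚ) • ∑ j, (ξ j : ℚ) • (θ ^ m * (e i * e j) / α) := by
    rw [sq, Finset.sum_mul, Finset.mul_sum, Finset.sum_div]
    refine Finset.sum_congr rfl fun i _ => ?_
    rw [Finset.mul_sum, Finset.mul_sum, Finset.sum_div, Finset.smul_sum]
    refine Finset.sum_congr rfl fun j _ => ?_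
    rw [icoe_mul, icoe_mul]
    simp only [Algebra.smul_def]
    ring
  rw [e2, map_sum, form, dotProduct, Int.cast_sum]
  refine Finset.sum_congr rfl fun i _ => ?_
  rw [map_smul, smul_eq_mul, map_sum, Int.cast_mul, Matrix.mulVec, dotProduct, Int.cast_sum]
  congr 1
  refine Finset.sum_congr rfl fun j _ => ?_
  rw [map_smul, smul_eq_mul, Int.cast_mul, ← qm_apply, h1, gram_pow hl b hb, mul_comm]

theorem change (hl : Lat hG α e A B) (U : Mt g ℤ) (hU : IsUnit U.det) :
    Lat hG α (fun j => ∑ i, (U i j : L) * e i) (Uᵀ * A * U) (Uᵀ * B * U) := by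
  have key : ∀ (x : L) (M : Mt g ℤ), (∀ i j, ((M i j : ℤ) : ℚ) = hG.top (x * (e i * e j) / α)) →
      ∀ i j, (((Uᵀ * M * U) i j : ℤ) : ℚ) =
        hG.top (x * ((∑ a, (U a i : L) * e a) * (∑ a, (U a j : L) * e a)) / α) := by
    intro x M hM i j
    have e2 : x * ((∑ a, (U a i : L) * e a) * (∑ a, (U a j : L) * e a)) / α =
        ∑ b, ∑ a, ((U a i : ℚ) * (U b j : ℚ)) • (x * (e a * e b) / α) := by
      rw [Finset.sum_mul_sum, Finset.mul_sum, Finset.sum_div, Finset.sum_comm]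
      refine Finset.sum_congr rfl fun a _ => ?_
      rw [Finset.mul_sum, Finset.sum_div]
      refine Finset.sum_congr rfl fun b _ => ?_
      rw [icoe_mul, icoe_mul]
      simp only [Algebra.smul_def, map_mul]
      ring
    rw [e2, map_sum, Matrix.mul_apply, Int.cast_sum]
    refine Finset.sum_congr rfl fun b _ => ?_
    rw [map_sum, Matrix.mul_apply, Int.cast_mul, Int.cast_sum, Finset.sum_mul]
    refine Finset.sum_congr rfl fun a _ => ?_
    rw [map_smul, smul_eq_mul, Matrix.transpose_apply, Int.cast_mul, hM]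
    ring
  refine ⟨?_, fun i j => ?_, fun i j => ?_⟩
  · have h1 : (Uᵀ * A * U).det = A.det := by
      rw [Matrix.det_mul, Matrix.det_mul, Matrix.det_transpose]
      rcases Int.isUnit_iff.1 hU with h | h <;> rw [h] <;> ring
    rw [h1]
    exact hl.det
  · have h1 := key 1 A (fun i j => by rw [one_mul, hl.gA]) i j
    rwa [one_mul] at h1
  · exact key θ B hl.gB i j

end gen

/-- **Formal properties of the Gram matrices.** -/
theorem chi : S_CHI := by
  intro g L _ _ f θ hG α e A B hα hl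
  have he := indep hl
  obtain ⟨b, hb⟩ : ∃ b : Module.Basis (Fin (2 * g + 1)) ℚ L, ∀ i, b i = e i := by
    refine ⟨basisOfLinearIndependentOfCardEqFinrank he (by rw [hG.rank, Fintype.card_fin]),
      fun i => ?_⟩
    rw [coe_basisOfLinearIndependentOfCardEqFinrank]
  refine ⟨?_, ?_, he, chp_eq hl b hb, det_eq hl hα, form_eq hl b hb, change hl⟩
  · ext i j
    have h1 : ((A j i : ℤ) : ℚ) = ((A i j : ℤ) : ℚ) := by rw [hl.gA, hl.gA, mul_comm (e j)]
    exact_mod_cast h1
  · ext i j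
    have h1 : ((B j i : ℤ) : ℚ) = ((B i j : ℤ) : ℚ) := by rw [hl.gB, hl.gB, mul_comm (e j)]
    exact_mod_cast h1

end Pool.Agent.N73.PQ
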